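import Pool.Agent.Y63.NV.Stm

/-!
# Transport of weights along isomorphisms
-/

open scoped Classical

noncomputable section

namespace Pool.Agent.Y624.NV

open Pool.Agent.Y63.AWC (IsIrreducibleCharacter)
open Pool.Agent.Y63.NV

section chars

variable {J J' : Type} [Group J] [Group J']

/-- the same subspaces are invariant -/
def subIso (e : J ≃* J') {V : Type} [AddCommGroup V] [Module ℂ V] (ρ : Representation ℂ J' V) :
    Subrepresentation ρ ≃o Subrepresentation
      ((MonoidHom.comp ρ e.toMonoidHom : Representation ℂ J V)) where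
  toFun s := ⟨s.toSubmodule, fun g _ hv => s.apply_mem_toSubmodule (e g) hv⟩
  invFun s := ⟨s.toSubmodule, fun g v hv => by
    have h := s.apply_mem_toSubmodule (e.symm g) hv
    change ρ (e (e.symm g)) v ∈ _ at h
    rwa [e.apply_symm_apply] at h⟩
  left_inv _ := rfl
  right_inv _ := rfl
  map_rel_iff' := Iff.rfl

theorem irr_comp (e : J ≃* J') {χ : J' → ℂ} (h : IsIrreducibleCharacter χ) :
    IsIrreducibleCharacter (fun x => χ (e x)) := by
  obtain ⟨V, i1, i2, i3, ρ, hρ, rfl⟩ := h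
  refine ⟨V, i1, i2, i3, (MonoidHom.comp ρ e.toMonoidHom : Representation ℂ J V), ?_, rfl⟩
  exact (subIso e ρ).isSimpleOrder_iff.1 hρ

theorem irr_class {χ : J → ℂ} (h : IsIrreducibleCharacter χ) (g x : J) :
    χ (g * x * g⁻¹) = χ x := by
  obtain ⟨V, i1, i2, i3, ρ, hρ, rfl⟩ := h
  exact ρ.char_conj x g

theorem class_isConj {X : Type} {φ : J → X} (h : ∀ g x : J, φ (g * x * g⁻¹) = φ x) {a b : J}
    (hab : IsConj a b) : φ a = φ b := by
  obtain ⟨c, hc⟩ := isConj_iff.1 hab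
  rw [← hc, h]

/-- the bijection of conjugacy classes -/
def ccEquiv (e : J ≃* J') : ConjClasses J ≃ ConjClasses J' where
  toFun := ConjClasses.map e.toMonoidHom
  invFun := ConjClasses.map e.symm.toMonoidHom
  left_inv C := by
    obtain ⟨x, rfl⟩ := ConjClasses.exists_rep C
    change ConjClasses.mk (e.symm (e x)) = ConjClasses.mk x
    rw [e.symm_apply_apply]
  right_inv C := by
    obtain ⟨x, rfl⟩ := ConjClasses.exists_rep C
    change ConjClasses.mk (e (e.symm x)) = ConjClasses.mk x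
    rw [e.apply_symm_apply]

theorem ccEquiv_mk (e : J ≃* J') (x : J) :
    ccEquiv e (ConjClasses.mk x) = ConjClasses.mk (e x) := rfl

theorem out_conj (e : J ≃* J') (C : ConjClasses J) :
    IsConj (e C.out) (ccEquiv e C).out := by
  have h1 : ConjClasses.mk ((ccEquiv e C).out) = ccEquiv e C := Quotient.out_eq _
  have h2 : ConjClasses.mk (C.out) = C := Quotient.out_eq _
  have h3 : ConjClasses.mk (e C.out) = ccEquiv e C := by
    rw [← ccEquiv_mk, h2]
  exact ConjClasses.mk_eq_mk_iff_isConj.1 (h3.trans h1.symm)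

theorem carrier_card (e : J ≃* J') (C : ConjClasses J) :
    Nat.card C.carrier = Nat.card (ccEquiv e C).carrier := by
  refine Nat.card_congr (e.toEquiv.subtypeEquiv fun x => ?_)
  change x ∈ C.carrier ↔ e x ∈ (ccEquiv e C).carrier
  rw [ConjClasses.mem_carrier_iff_mk_eq, ConjClasses.mem_carrier_iff_mk_eq, ← ccEquiv_mk]
  exact (ccEquiv e).injective.eq_iff.symm

theorem centralValue_comp {F : Type} [Field F] (red : integralClosure ℤ ℂ →+* F) (e : J ≃* J')
    {χ : J' → ℂ} (hχ : IsIrreducibleCharacter χ) {f : J' → F} (hf : IsClassFun f) :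
    centralValue red (fun x => χ (e x)) (fun x => f (e x)) = centralValue red χ f := by
  unfold centralValue
  rw [← finsum_comp_equiv (ccEquiv e)]
  refine finsum_congr fun C => ?_
  have h1 : f (e C.out) = f (ccEquiv e C).out := class_isConj hf (out_conj e C)
  have h2 : χ (e C.out) = χ (ccEquiv e C).out := class_isConj (irr_class hχ) (out_conj e C)
  simp only []
  rw [h1, h2, carrier_card e C, map_one]

theorem isWt_comp {p : ℕ} (e : J ≃* J') {Q : Subgroup J} {Q' : Subgroup J'}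
    (hQ : ∀ x, e x ∈ Q' ↔ x ∈ Q) {χ : J' → ℂ} (h : IsWt p Q' χ) : IsWt p Q (fun x => χ (e x)) := by
  obtain ⟨h1, h2, n, h3, h4⟩ := h
  refine ⟨irr_comp e h1, fun q hq x => ?_, n, ?_, ?_⟩
  · simp only [map_mul]
    exact h2 _ ((hQ q).2 hq) _
  · simp only [map_one]
    exact h3
  · have e1 : Nat.card J = Nat.card J' := Nat.card_congr e.toEquiv
    have e2 : Nat.card Q = Nat.card Q' :=
      Nat.card_congr (e.toEquiv.subtypeEquiv fun x => (hQ x).symm)
    rw [e1, e2]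
    exact h4

theorem isWt_iff {p : ℕ} (e : J ≃* J') {Q : Subgroup J} {Q' : Subgroup J'}
    (hQ : ∀ x, e x ∈ Q' ↔ x ∈ Q) {χ : J' → ℂ} : IsWt p Q (fun x => χ (e x)) ↔ IsWt p Q' χ := by
  refine ⟨fun h => ?_, isWt_comp e hQ⟩
  have h2 := isWt_comp (p := p) e.symm (Q := Q') (Q' := Q) (fun y => by
    rw [← hQ, e.apply_symm_apply]) h
  simpa using h2

/-- invariance of the number of weights under isomorphisms -/
theorem nw_congr (p : ℕ) {F : Type} [Field F] (red : integralClosure ℤ ℂ →+* F) (e : J ≃* J')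
    {Q : Subgroup J} {Q' : Subgroup J'} (hQ : ∀ x, e x ∈ Q' ↔ x ∈ Q) {f : J → F} {f' : J' → F}
    (hff : ∀ x, f x = f' (e x)) (hf : IsClassFun f') (c : F) :
    Nw p red Q f c = Nw p red Q' f' c := by
  obtain rfl : f = fun x => f' (e x) := funext hff
  unfold Nw
  refine Nat.card_congr ((Equiv.arrowCongr e.toEquiv (Equiv.refl ℂ)).subtypeEquiv fun χ => ?_)
  have h1 : χ = fun x => ((Equiv.arrowCongr e.toEquiv (Equiv.refl ℂ)) χ) (e x) := by
    funext x
    change χ x = χ (e.symm (e x))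
    rw [e.symm_apply_apply]
  generalize (Equiv.arrowCongr e.toEquiv (Equiv.refl ℂ)) χ = ψ at h1 ⊢
  subst h1
  rw [isWt_iff e hQ]
  constructor
  · rintro ⟨a, b⟩
    rw [centralValue_comp red e a.irr hf] at b
    exact ⟨a, b⟩
  · rintro ⟨a, b⟩
    refine ⟨a, ?_⟩
    rw [centralValue_comp red e a.irr hf]
    exact b

end chars

/-- NWC: invariance under isomorphisms -/
theorem nwc : ∀ (p : ℕ) (F : Type) [Field F] (red : integralClosure ℤ ℂ →+* F)
    (J J' : Type) [Group J] [Group J'] [Finite J] [Finite J'] (e : J ≃* J') (Q : Subgroup J)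
    (f : J' → F) (c : F), IsClassFun f →
      Nw p red Q (fun x => f (e x)) c = Nw p red (Q.map e.toMonoidHom) f c := by
  intro p F _ red J J' _ _ _ _ e Q f c hf
  refine nw_congr p red e (fun x => ?_) (fun _ => rfl) hf c
  rw [Subgroup.mem_map]
  constructor
  · rintro ⟨y, hy, hxy⟩
    rwa [← e.injective hxy]
  · intro hx
    exact ⟨x, hx, rfl⟩

section sub

variable {Γ : Type} [Group Γ]

theorem norm_fwd {H Q : Subgroup Γ} {x : Γ} (hx : x ∈ H)
    (h : x ∈ Subgroup.normalizer (Q : Set Γ)) :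
    (⟨x, hx⟩ : H) ∈ Subgroup.normalizer ((Q.subgroupOf H : Subgroup H) : Set H) := by
  rw [Subgroup.mem_normalizer_iff]
  intro y
  rw [Subgroup.mem_subgroupOf, Subgroup.mem_subgroupOf]
  exact Subgroup.mem_normalizer_iff.1 h _

theorem norm_bwd {H Q : Subgroup Γ} (hQ : Q ≤ H) {x : H}
    (h : x ∈ Subgroup.normalizer ((Q.subgroupOf H : Subgroup H) : Set H)) :
    (x : Γ) ∈ Subgroup.normalizer (Q : Set Γ) := by
  have hx := Subgroup.mem_normalizer_iff.1 h
  rw [Subgroup.mem_normalizer_iff]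
  intro y
  constructor
  · intro hh
    have h1 := (hx ⟨y, hQ hh⟩).1 (Subgroup.mem_subgroupOf.2 hh)
    exact Subgroup.mem_subgroupOf.1 h1
  · intro hh
    have hH : y ∈ H := by
      have h2 : (x : Γ)⁻¹ * ((x : Γ) * y * (x : Γ)⁻¹) * (x : Γ) ∈ H :=
        H.mul_mem (H.mul_mem (H.inv_mem x.2) (hQ hh)) x.2
      have h3 : (x : Γ)⁻¹ * ((x : Γ) * y * (x : Γ)⁻¹) * (x : Γ) = y := by group
      rwa [h3] at h2
    exact Subgroup.mem_subgroupOf.1 ((hx ⟨y, hH⟩).2 (Subgroup.mem_subgroupOf.2 hh))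

/-- the normalizers correspond -/
def nEquiv (H Q : Subgroup Γ) (hQ : Q ≤ H) :
    ↥(H ⊓ Subgroup.normalizer (Q : Set Γ)) ≃*
      ↥((⊤ : Subgroup H) ⊓ Subgroup.normalizer ((Q.subgroupOf H : Subgroup H) : Set H)) where
  toFun x := ⟨⟨x.1, (Subgroup.mem_inf.1 x.2).1⟩, Subgroup.mem_inf.2 ⟨Subgroup.mem_top _,
    norm_fwd _ (Subgroup.mem_inf.1 x.2).2⟩⟩
  invFun x := ⟨x.1.1, Subgroup.mem_inf.2 ⟨x.1.2, norm_bwd hQ (Subgroup.mem_inf.1 x.2).2⟩⟩
  left_inv _ := rfl
  right_inv _ := rfl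
  map_mul' _ _ := rfl

theorem sup_iff (G H Q : Subgroup Γ) [G.Normal] (hGH : G ⊔ H = ⊤) (hQ : Q ≤ H) :
    G.subgroupOf H ⊔ Q.subgroupOf H = ⊤ ↔ G ⊔ Q = ⊤ := by
  constructor
  · intro h
    rw [eq_top_iff, ← hGH]
    refine sup_le le_sup_left ?_
    intro x hx
    have h1 : (⟨x, hx⟩ : H) ∈ G.subgroupOf H ⊔ Q.subgroupOf H := by
      rw [h]
      exact Subgroup.mem_top _
    obtain ⟨y, hy, z, hz, hyz⟩ := Subgroup.mem_sup_of_normal_left.1 h1
    have h2 : (y : Γ) * z = x := congrArg Subtype.val hyz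
    rw [← h2]
    exact Subgroup.mul_mem_sup (Subgroup.mem_subgroupOf.1 hy) (Subgroup.mem_subgroupOf.1 hz)
  · intro h
    rw [eq_top_iff]
    rintro ⟨x, hx⟩ -
    have h1 : x ∈ G ⊔ Q := by
      rw [h]
      exact Subgroup.mem_top _
    obtain ⟨y, hy, z, hz, hyz⟩ := Subgroup.mem_sup_of_normal_left.1 h1
    have hyH : y ∈ H := by
      have h2 : y = x * z⁻¹ := by rw [← hyz]; group
      rw [h2]
      exact H.mul_mem hx (H.inv_mem (hQ hz))
    have h3 : (⟨x, hx⟩ : H) = ⟨y, hyH⟩ * ⟨z, hQ hz⟩ := Subtype.ext hyz.symm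
    rw [h3]
    exact Subgroup.mul_mem_sup (Subgroup.mem_subgroupOf.2 hy) (Subgroup.mem_subgroupOf.2 hz)

theorem pg_iff (p : ℕ) (H Q : Subgroup Γ) (hQ : Q ≤ H) :
    IsPGroup p (Q.subgroupOf H) ↔ IsPGroup p Q :=
  ⟨fun h => h.of_equiv (Subgroup.subgroupOfEquivOfLe hQ),
    fun h => h.of_equiv (Subgroup.subgroupOfEquivOfLe hQ).symm⟩

end sub

/-- TRN: weights and subgroups -/
theorem trn : ∀ (p : ℕ) (F : Type) [Field F]
    (red : integralClosure ℤ ℂ →+* F) (Γ : Type) [Group Γ] [Finite Γ] (G H : Subgroup Γ)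
    [G.Normal] (z : Γ → F) (c : F), G ⊔ H = ⊤ → (∀ h ∈ H, ∀ x : Γ, z (h * x * h⁻¹) = z x) →
      Wsum p red G H z c = Wsum p red (G.subgroupOf H) ⊤ (fun x => z x) c := by
  intro p F _ red Γ _ _ G H _ z c hGH hz
  unfold Wsum
  have key : ∀ Q : Subgroup Γ, Q ≤ H →
      (if IsPGroup p Q ∧ Q ≤ H ∧ G ⊔ Q = ⊤ then
        (Nat.card ↥(H ⊓ Subgroup.normalizer (Q : Set Γ)) : ℤ) *
          Nw p red (Q.subgroupOf (H ⊓ Subgroup.normalizer (Q : Set Γ))) (fun x => z x) c else 0) =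
      (if IsPGroup p (Q.subgroupOf H) ∧ Q.subgroupOf H ≤ ⊤ ∧ G.subgroupOf H ⊔ Q.subgroupOf H = ⊤
        then (Nat.card ↥((⊤ : Subgroup H) ⊓
            Subgroup.normalizer ((Q.subgroupOf H : Subgroup H) : Set H)) : ℤ) *
          Nw p red ((Q.subgroupOf H).subgroupOf ((⊤ : Subgroup H) ⊓
            Subgroup.normalizer ((Q.subgroupOf H : Subgroup H) : Set H)))
            (fun x => z ((x : H) : Γ)) c else 0) := by
    intro Q hQ
    have hiff : (IsPGroup p Q ∧ Q ≤ H ∧ G ⊔ Q = ⊤) ↔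
        (IsPGroup p (Q.subgroupOf H) ∧ Q.subgroupOf H ≤ ⊤ ∧
          G.subgroupOf H ⊔ Q.subgroupOf H = ⊤) := by
      rw [pg_iff p H Q hQ, sup_iff G H Q hGH hQ]
      exact ⟨fun h => ⟨h.1, le_top, h.2.2⟩, fun h => ⟨h.1, hQ, h.2.2⟩⟩
    rw [if_congr hiff rfl rfl]
    refine if_congr Iff.rfl ?_ rfl
    have h1 : Nat.card ↥(H ⊓ Subgroup.normalizer (Q : Set Γ)) =
        Nat.card ↥((⊤ : Subgroup H) ⊓
            Subgroup.normalizer ((Q.subgroupOf H : Subgroup H) : Set H)) :=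
      Nat.card_congr (nEquiv H Q hQ).toEquiv
    have h2 : Nw p red (Q.subgroupOf (H ⊓ Subgroup.normalizer (Q : Set Γ))) (fun x => z x) c =
        Nw p red ((Q.subgroupOf H).subgroupOf ((⊤ : Subgroup H) ⊓
            Subgroup.normalizer ((Q.subgroupOf H : Subgroup H) : Set H)))
            (fun x => z ((x : H) : Γ)) c := by
      refine nw_congr p red (nEquiv H Q hQ)
        (Q := Q.subgroupOf (H ⊓ Subgroup.normalizer (Q : Set Γ)))
        (Q' := (Q.subgroupOf H).subgroupOf ((⊤ : Subgroup H) ⊓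
            Subgroup.normalizer ((Q.subgroupOf H : Subgroup H) : Set H)))
        (f := fun x => z x.1) (f' := fun x => z (x.1 : H).1)
        (fun x => Iff.rfl) (fun x => rfl) ?_ c
      intro g x
      exact hz g.1.1 g.1.2 x.1.1
    rw [h1, h2]
  have hinj : Function.Injective (fun Q' : Subgroup H => Q'.map H.subtype) :=
    Subgroup.map_injective H.subtype_injective
  have hrange : ∀ Q : Subgroup Γ, Q ≤ H → (Q.subgroupOf H).map H.subtype = Q := fun Q hQ =>
    Subgroup.map_subgroupOf_eq_of_le hQ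
  have hcomap : ∀ Q' : Subgroup H, (Q'.map H.subtype).subgroupOf H = Q' := fun Q' =>
    Subgroup.comap_map_eq_self_of_injective H.subtype_injective Q'
  set A : Subgroup Γ → ℤ := fun Q => if IsPGroup p Q ∧ Q ≤ H ∧ G ⊔ Q = ⊤ then
        (Nat.card ↥(H ⊓ Subgroup.normalizer (Q : Set Γ)) : ℤ) *
          Nw p red (Q.subgroupOf (H ⊓ Subgroup.normalizer (Q : Set Γ))) (fun x => z x) c else 0
    with hA
  set B : Subgroup H → ℤ := fun Q => if IsPGroup p Q ∧ Q ≤ ⊤ ∧ G.subgroupOf H ⊔ Q = ⊤ then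
        (Nat.card ↥(⊤ ⊓ Subgroup.normalizer (Q : Set H)) : ℤ) *
          Nw p red (Q.subgroupOf (⊤ ⊓ Subgroup.normalizer (Q : Set H)))
            (fun x => z ((x : H) : Γ)) c else 0
    with hB
  have e1 : ∑ᶠ Q, A Q = ∑ᶠ Q ∈ Set.range (fun Q' : Subgroup H => Q'.map H.subtype), A Q := by
    refine finsum_congr fun Q => ?_
    by_cases hQ : Q ≤ H
    · have hm : Q ∈ Set.range (fun Q' : Subgroup H => Q'.map H.subtype) := ⟨_, hrange Q hQ⟩
      rw [finsum_eq_if, if_pos hm]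
    · have h0 : A Q = 0 := by
        rw [hA]
        exact if_neg fun h => hQ h.2.1
      rw [h0, finsum_eq_if, ite_self]
  change ∑ᶠ Q, A Q = ∑ᶠ Q, B Q
  rw [e1, finsum_mem_range hinj]
  refine finsum_congr fun Q' => ?_
  have h3 : Q'.map H.subtype ≤ H := Subgroup.map_subtype_le Q'
  have h4 := key _ h3
  rw [hcomap] at h4
  exact h4

end Pool.Agent.Y624.NV
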